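import Pool.Agent.Helper61.BW.WConB

/-!
# Package W5: the conclusion of the Lie algebra argument
-/

set_option autoImplicit false

open Polynomial Matrix Finset Filter

namespace Pool.Agent.Helper61.BW

open Pool.Agent.Helper62.BM Pool.Agent.Helper62.BW Pool.Agent.Helper90.BM Pool.Agent.Helper61.BM
open Pool.Agent.Helper61.BL (ι_inj mk_trace lift_poly eval_up)

section up

variable (U : Ultrafilter ℕ) {A : Type} [CommRing A] {C : ℕ → Type} [∀ i, Field (C i)]
  (φ : ∀ i, A →+* C i)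

theorem up_apply (a : A) : up U φ a = Helper62.BM.mk U fun i => φ i a := rfl

theorem up_inj (hφ : ∀ a : A, a ≠ 0 → ∀ᶠ i in (U : Filter ℕ), φ i a ≠ 0) :
    Function.Injective (up U φ) := by
  rw [injective_iff_map_eq_zero]
  intro a ha
  by_contra h0
  rw [up_apply, mk_eq_zero] at ha
  obtain ⟨i, h1, h2⟩ := (ha.and (hφ a h0)).exists
  exact h2 h1

/-- the lift of the image of a polynomial -/
theorem lift_map (q : A[X]) : (q.map (RingHom.pi φ)).map (Helper62.BM.mk U) = q.map (up U φ) := by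
  rw [Polynomial.map_map]
  rfl

theorem lift_eval (q : A[X]) (i : ℕ) :
    (q.map (RingHom.pi φ)).map (Pi.evalRingHom C i) = q.map (φ i) := by
  rw [Polynomial.map_map]
  rfl

theorem r_up {g : ℕ} (Dt : Dat A g) (a : Fin (2 * g)) :
    (Dt.map (up U φ)).r a = Helper62.BM.mk U fun i => (Dt.map (φ i)).r a := by
  rw [map_r, up_apply]
  congr 1
  funext i
  rw [map_r]

end up

/-- Package W5. -/
theorem w_con (hRes : L_Res) (hPS : L_PS) (hTr : W_Tr) (hVan : W_Van) (hOM : W_OkMap)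
    (hLie : S_Lie) : W_Con := by
  intro g hg A _ _ _ Dt hOk hS U C _ p _ _ hp φ hφ Df hDf f hf hfD A₁ hA θ hθ
  have hcast : ∀ (i : ℕ) (m : ℕ), 1 ≤ m → m < p i → ((m : ℕ) : C i) ≠ 0 := by
    intro i m h1 h2 h3
    rw [CharP.cast_eq_zero_iff (C i) (p i)] at h3
    exact absurd (Nat.le_of_dvd h1 h3) (not_le.2 h2)
  have hC0 : CharZero (UP U C) := Helper62.BM.charZero U fun m hm => by
    filter_upwards [hp m] with i hi
    exact hcast i m hm hi
  have hDp : ∀ (i : ℕ) (c : KX (C i)), (⇑(Df i))^[p i] c = 0 := fun i c =>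
    isDer_iter (hDf i) (p i) c
  have hinj := up_inj U φ hφ
  set E : Dat (UP U C) g := Dt.map (up U φ) with hE
  have hEOk : E.Ok := ok_inj Dt hOk (up U φ) hinj
  have hES : E.Strong := hTr A g Dt hOk (FractionRing A) (UP U C) (algebraMap A (FractionRing A))
    (up U φ) (IsFractionRing.injective A (FractionRing A)) hinj hS
  obtain ⟨a₀, ha₀, hokm⟩ := hOM A g Dt hOk
  have hOki : ∀ᶠ i in (U : Filter ℕ), (Dt.map (φ i)).Ok := by
    filter_upwards [hφ a₀ ha₀] with i hi
    exact hokm (C i) (φ i) hi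
  -- the values of `f`
  have hfι : ∀ q : A[X], f (ι _ (q.map (up U φ))) =
      Helper62.BM.mk U fun i => ι (C i) (q.map (φ i)) := by
    intro q
    have h1 := hf (q.map (RingHom.pi φ))
    rw [lift_map] at h1
    rw [h1]
    congr 1
    funext i
    rw [lift_eval]
  have hfB : E.B.map f = mkM U fun i => (Dt.map (φ i)).B := by
    ext1 a b
    have h1 : E.B a b = ι _ ((Dt.M a b).map (up U φ)) * (ι _ (Dt.W.map (up U φ)))⁻¹ := by
      rw [← map_W]
      rfl
    have h2 : ∀ i, (Dt.map (φ i)).B a b =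
        ι (C i) ((Dt.M a b).map (φ i)) * (ι (C i) (Dt.W.map (φ i)))⁻¹ := by
      intro i
      rw [← map_W]
      rfl
    rw [Matrix.map_apply, h1, map_mul, map_inv₀, hfι, hfι, ← mk_inv, ← map_mul, mkM_apply]
    congr 1
    funext i
    rw [h2]
    rfl
  obtain ⟨Dk, hDk, -⟩ := Pool.Agent.Helper12.BM.frac (UP U C)
  refine core1 hPS hVan hLie g hg (UP U C) E hEOk hES (UP U fun i => KX (C i)) f Dk hDk
    (der U Df) (hfD Dk hDk) (mkM U fun i => pcv (Df i) (Dt.map (φ i)).B (p i)) ?_ ?_ ?_ A₁ hA θ hθ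
  · rw [hfB, ← mkM_NB, ← BM.mk_zero U]
    congr 1
    funext i
    exact hor_pcv (p i) (Df i) (hDp i) _
  · intro W hW η hη
    rw [hfB] at hW
    exact dpm U (fun i => KX (C i)) p Df hDp (2 * g) (fun i => (Dt.map (φ i)).B) W hW η hη
  · intro η hη
    obtain ⟨q, hq⟩ := lift_poly U η
    set ηi : ∀ i, Matrix (Fin (2 * g)) (Fin (2 * g)) (C i)[X] :=
      fun i => Matrix.of fun a b => (q a b).map (Pi.evalRingHom C i) with hηi
    have h1 : (mkM U fun i => (ηi i).map (ι (C i))) = (η.map (ι (UP U C))).map f := by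
      refine Matrix.ext fun a b => ?_
      rw [mkM_apply, Matrix.map_apply, Matrix.map_apply, ← hq a b, hf]
      rfl
    have h2 : ∀ᶠ i in (U : Filter ℕ),
        ((ηi i).map (ι (C i)) * pcv (Df i) (Dt.map (φ i)).B (p i)).trace = 0 := by
      rw [← mk_eq_zero]
      rw [← h1, ← mkM_mul, mk_trace] at hη
      exact hη
    have h5 : ∀ᶠ i in (U : Filter ℕ), (Dt.map (φ i)).e ⬝ᵥ
        (((ηi i).map (Polynomial.eval (Dt.map (φ i)).c)) *ᵥ (Dt.map (φ i)).r) = 0 := by
      filter_upwards [h2, hp 2, hOki] with i h3 h4 h5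
      obtain ⟨o1, -, -, -, -, -, o2, o3, o4, -, -, o5⟩ := h5
      have h2' : (2 : C i) ≠ 0 := by
        have := hcast i 2 (by norm_num) h4
        exact_mod_cast this
      have her := er (Dt.map (φ i)) o1 h2'
      exact M_tr (Dt.map (φ i)) o3 o4 o5 _ (hRes (C i) (p i) (Df i) (hDf i) (2 * g)
        (Dt.map (φ i)).B (Dt.map (φ i)).M (Dt.map (φ i)).w (Dt.map (φ i)).c o2
        (fun a b => w_B (Dt.map (φ i)) o2 a b) (M_sq (Dt.map (φ i)) o3 o5 her) (ηi i) h3)
    have h6 : ∀ a b, (η a b).eval E.c =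
        Helper62.BM.mk U fun i => (ηi i a b).eval (Dt.map (φ i)).c := by
      intro a b
      rw [← hq a b]
      exact eval_up U (q a b) fun i => φ i Dt.c
    have h7 : E.e ⬝ᵥ (η.map (Polynomial.eval E.c) *ᵥ E.r) = Helper62.BM.mk U fun i =>
        (Dt.map (φ i)).e ⬝ᵥ
          (((ηi i).map (Polynomial.eval (Dt.map (φ i)).c)) *ᵥ (Dt.map (φ i)).r) := by
      have h8 : (fun i => (Dt.map (φ i)).e ⬝ᵥ
          (((ηi i).map (Polynomial.eval (Dt.map (φ i)).c)) *ᵥ (Dt.map (φ i)).r)) =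
          ∑ a : Fin (2 * g), ((fun i => φ i (Dt.e a) : ∀ i, C i) *
            ∑ b : Fin (2 * g), ((fun i => (ηi i a b).eval (Dt.map (φ i)).c : ∀ i, C i) *
              (fun i => (Dt.map (φ i)).r b : ∀ i, C i))) := by
        funext i
        rw [Finset.sum_apply]
        refine Finset.sum_congr rfl fun a _ => ?_
        rw [Pi.mul_apply, Finset.sum_apply]
        rfl
      rw [h8, map_sum]
      refine Finset.sum_congr rfl fun a _ => ?_
      rw [map_mul, map_sum]
      have h9 : E.e a = Helper62.BM.mk U fun i => φ i (Dt.e a) := rfl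
      have h10 : (η.map (Polynomial.eval E.c) *ᵥ E.r) a = ∑ b, (η a b).eval E.c * E.r b := rfl
      rw [h9, h10]
      have h11 : ∀ b, (η a b).eval E.c * E.r b = Helper62.BM.mk U
          ((fun i => (ηi i a b).eval (Dt.map (φ i)).c : ∀ i, C i) *
              (fun i => (Dt.map (φ i)).r b : ∀ i, C i)) := by
        intro b
        rw [map_mul, ← r_up, ← h6 a b]
      simp only [h11]
    rw [h7, mk_eq_zero]
    exact h5

end Pool.Agent.Helper61.BW
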