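import Pool.Agent.Helper61.BL.LCon
import Pool.Agent.Helper62.BW.Data

/-!
# Package W5: preparations
-/

set_option autoImplicit false

open Polynomial Matrix Finset Filter

namespace Pool.Agent.Helper61.BW

open Pool.Agent.Helper62.BM Pool.Agent.Helper62.BW Pool.Agent.Helper90.BM Pool.Agent.Helper61.BM
open Pool.Agent.Helper61.BL (tay_C tay_X tay_eq tay_inj tay_coeff0 tay_der D_dot D_mulVec ι_inj
  clear LX al al_inj ell ell_ι tr_ell tr_poly Orth mem_Orth clearM mem_of_smul orth_stable_f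
  closure smul_map PolyM mem_PolyM double_ann span_stable)

section alg

variable {k : Type} [Field k] {g n : ℕ}

theorem map_der_mul (M N : Matrix (Fin n) (Fin n) k[X]) :
    (M * N).map (fun q => derivative q) =
      M.map (fun q => derivative q) * N + M * N.map (fun q => derivative q) := by
  ext1 i j
  simp only [Matrix.map_apply, Matrix.mul_apply, Matrix.add_apply, derivative_sum, derivative_mul,
    Finset.sum_add_distrib]

/-- the derivative of the adjugate -/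
theorem adj_hor (D : Dat k g) (hδ : D.δ ≠ 0) (hdet : D.Q.det = Polynomial.C D.δ)
    (hH : D.W • D.Q.map (fun q => derivative q) + D.M * D.Q + D.Q * D.Mᵀ = 0) :
    D.W • (D.Q.adjugate).map (fun q => derivative q) =
      D.Q.adjugate * D.M + D.Mᵀ * D.Q.adjugate := by
  set N := D.Q.adjugate with hN
  have h1 : N * D.Q = Polynomial.C D.δ • 1 := by rw [hN, Matrix.adjugate_mul, hdet]
  have h2 : D.Q * N = Polynomial.C D.δ • 1 := by rw [hN, Matrix.mul_adjugate, hdet]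
  have h3 : N.map (fun q => derivative q) * D.Q + N * D.Q.map (fun q => derivative q) = 0 := by
    rw [← map_der_mul, h1]
    ext1 i j
    rw [Matrix.map_apply, Matrix.smul_apply, Matrix.zero_apply, Matrix.one_apply, smul_eq_mul]
    split_ifs
    · rw [mul_one, derivative_C]
    · rw [mul_zero, derivative_zero]
  have h4 : D.W • D.Q.map (fun q => derivative q) = -(D.M * D.Q + D.Q * D.Mᵀ) := by
    rw [add_assoc] at hH
    exact eq_neg_of_add_eq_zero_left hH
  have h5 : N.map (fun q => derivative q) * D.Q = -(N * D.Q.map (fun q => derivative q)) :=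
    eq_neg_of_add_eq_zero_left h3
  have h6 : (D.W • N.map (fun q => derivative q)) * D.Q =
      N * D.M * D.Q + Polynomial.C D.δ • D.Mᵀ := by
    rw [Matrix.smul_mul, h5, smul_neg, ← Matrix.mul_smul, h4, Matrix.mul_neg, neg_neg,
      Matrix.mul_add, ← Matrix.mul_assoc, ← Matrix.mul_assoc, h1, Matrix.smul_mul, Matrix.one_mul]
  have h7 : Polynomial.C D.δ • (D.W • N.map (fun q => derivative q)) =
      Polynomial.C D.δ • (N * D.M + D.Mᵀ * N) := by
    have h8 := congrArg (fun Z => Z * N) h6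
    beta_reduce at h8
    rw [Matrix.mul_assoc, h2, Matrix.mul_smul, Matrix.mul_one, Matrix.add_mul, Matrix.mul_assoc,
      h2, Matrix.mul_smul, Matrix.mul_one, Matrix.smul_mul] at h8
    rw [h8, smul_add]
  have hδ' : Polynomial.C D.δ ≠ 0 := fun h => hδ (Polynomial.C_eq_zero.1 h)
  ext1 i j
  have h9 := congrFun (congrFun h7 i) j
  rw [Matrix.smul_apply, Matrix.smul_apply, smul_eq_mul, smul_eq_mul] at h9
  exact mul_left_cancel₀ hδ' h9

theorem hor_vec (D : Dat k g) {x : Fin (2 * g) → PowerSeries k} (hx : D.Hor x) :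
    (tay D.c D.W • fun a => PowerSeries.derivative k (x a)) = -(D.M.map (tay D.c) *ᵥ x) := by
  funext a
  rw [Pi.neg_apply, Pi.smul_apply, smul_eq_mul]
  exact eq_neg_of_add_eq_zero_left (hx a)

theorem xi_vec (D : Dat k g) (hδ : D.δ ≠ 0) (hdet : D.Q.det = Polynomial.C D.δ)
    (hH : D.W • D.Q.map (fun q => derivative q) + D.M * D.Q + D.Q * D.Mᵀ = 0)
    {x : Fin (2 * g) → PowerSeries k} (hx : D.Hor x) :
    (tay D.c D.W • fun a => PowerSeries.derivative k (D.xi x a)) =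
      (D.M.map (tay D.c))ᵀ *ᵥ D.xi x := by
  have h0 : (D.xi x) = (D.Q.adjugate).map (tay D.c) *ᵥ x := rfl
  have h1 : ((D.Q.adjugate).map (tay D.c)).map (PowerSeries.derivative k) =
      ((D.Q.adjugate).map fun q => derivative q).map (tay D.c) := by
    ext1 i j
    simp only [Matrix.map_apply, tay_der]
  have h2 : (tay D.c D.W • (((D.Q.adjugate).map (tay D.c)).map (PowerSeries.derivative k))) =
      (D.Q.adjugate).map (tay D.c) * D.M.map (tay D.c) +
        (D.M.map (tay D.c))ᵀ * (D.Q.adjugate).map (tay D.c) := by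
    have h3 := congrArg (fun Z => Matrix.map Z (tay D.c)) (adj_hor D hδ hdet hH)
    beta_reduce at h3
    rw [Matrix.map_add _ (map_add _), Matrix.map_mul, Matrix.map_mul, Matrix.transpose_map] at h3
    rw [← h3, h1]
    ext1 i j
    exact (map_mul (tay D.c) D.W (derivative (D.Q.adjugate i j))).symm
  rw [h0, D_mulVec, smul_add, ← Matrix.smul_mulVec, h2, ← Matrix.mulVec_smul, hor_vec D hx,
    Matrix.add_mulVec, Matrix.mulVec_neg, ← Matrix.mulVec_mulVec, ← Matrix.mulVec_mulVec]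
  abel

/-- `w (ξᵀ θ x)' = ξᵀ (w ∇ θ) x` -/
theorem star (D : Dat k g) (hδ : D.δ ≠ 0) (hdet : D.Q.det = Polynomial.C D.δ)
    (hH : D.W • D.Q.map (fun q => derivative q) + D.M * D.Q + D.Q * D.Mᵀ = 0)
    {x : Fin (2 * g) → PowerSeries k} (hx : D.Hor x)
    (θ : Matrix (Fin (2 * g)) (Fin (2 * g)) k[X]) :
    tay D.c D.W * PowerSeries.derivative k (D.xi x ⬝ᵥ (θ.map (tay D.c) *ᵥ x)) =
      D.xi x ⬝ᵥ ((D.wD θ).map (tay D.c) *ᵥ x) := by
  set c := D.c with hc
  set T := θ.map (tay c) with hT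
  set M := D.M.map (tay c) with hM
  have h1 : T.map (PowerSeries.derivative k) = (θ.map fun q => derivative q).map (tay c) := by
    ext1 i j
    simp only [Matrix.map_apply, hT, tay_der]
  have h2 : (D.wD θ).map (tay c) =
      tay c D.W • T.map (PowerSeries.derivative k) + M * T - T * M := by
    rw [h1]
    unfold Dat.wD
    ext1 i j
    rw [Matrix.map_apply, Matrix.sub_apply, Matrix.add_apply, map_sub, map_add, Matrix.smul_apply,
      smul_eq_mul, map_mul, Matrix.sub_apply, Matrix.add_apply, Matrix.smul_apply, smul_eq_mul,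
      hM, hT, ← Matrix.map_mul, ← Matrix.map_mul]
    rfl
  set x' : Fin (2 * g) → PowerSeries k := fun i => PowerSeries.derivative k (x i) with hx'
  set ξ := D.xi x with hξ
  have h3 : tay c D.W * ((fun i => PowerSeries.derivative k (ξ i)) ⬝ᵥ (T *ᵥ x)) =
      ξ ⬝ᵥ (M *ᵥ (T *ᵥ x)) := by
    rw [← smul_eq_mul, ← smul_dotProduct, hc, xi_vec D hδ hdet hH hx, Matrix.mulVec_transpose,
      ← Matrix.dotProduct_mulVec]
  have h4 : tay c D.W * (ξ ⬝ᵥ (T *ᵥ x')) = - (ξ ⬝ᵥ (T *ᵥ (M *ᵥ x))) := by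
    rw [← smul_eq_mul, ← dotProduct_smul, ← Matrix.mulVec_smul, hx', hc, hor_vec D hx,
      Matrix.mulVec_neg, dotProduct_neg]
  have h5 : tay c D.W * (ξ ⬝ᵥ (T.map (PowerSeries.derivative k) *ᵥ x)) =
      ξ ⬝ᵥ ((tay c D.W • T.map (PowerSeries.derivative k)) *ᵥ x) := by
    rw [Matrix.smul_mulVec, dotProduct_smul, smul_eq_mul]
  rw [h2, D_dot, D_mulVec, mul_add, h3, dotProduct_add, mul_add, h5, h4, Matrix.sub_mulVec,
    Matrix.add_mulVec, ← Matrix.mulVec_mulVec, ← Matrix.mulVec_mulVec, dotProduct_sub,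
    dotProduct_add]
  ring

theorem W_ne (D : Dat k g) (hw : D.w.eval D.c ≠ 0) : D.W ≠ 0 := by
  intro h
  rcases mul_eq_zero.1 h with h1 | h1
  · exact X_sub_C_ne_zero _ h1
  · exact hw (by rw [h1, eval_zero])

theorem ιW_ne (D : Dat k g) (hw : D.w.eval D.c ≠ 0) : ι k D.W ≠ 0 := fun h =>
  W_ne D hw (ι_inj (h.trans (map_zero _).symm))

theorem w_B (D : Dat k g) (hw : D.w.eval D.c ≠ 0) (i j : Fin (2 * g)) :
    ι k D.W * D.B i j = ι k (D.M i j) := by
  have h1 : D.B i j = ι k (D.M i j) * (ι k D.W)⁻¹ := rfl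
  rw [h1, mul_comm, mul_assoc, inv_mul_cancel₀ (ιW_ne D hw), mul_one]

theorem NB_poly (D : Dat k g) (hw : D.w.eval D.c ≠ 0) {Dk : Der (KX k)}
    (hDk : IsDer Dk) (θ : Matrix (Fin (2 * g)) (Fin (2 * g)) k[X]) :
    ι k D.W • NB Dk D.B (θ.map (ι k)) = (D.wD θ).map (ι k) := by
  have hB : ι k D.W • D.B = D.M.map (ι k) := by
    ext1 i j
    rw [Matrix.smul_apply, smul_eq_mul, w_B D hw, Matrix.map_apply]
  unfold NB Dat.wD
  rw [smul_sub, smul_add, ← Matrix.smul_mul, ← Matrix.mul_smul, hB, ← Matrix.map_mul,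
    ← Matrix.map_mul]
  ext1 i j
  rw [Matrix.sub_apply, Matrix.add_apply, Matrix.smul_apply, Matrix.map_apply, Matrix.map_apply,
    hDk, Matrix.map_apply, Matrix.map_apply, Matrix.map_apply, Matrix.sub_apply, Matrix.add_apply,
    Matrix.smul_apply, map_sub, map_add, smul_eq_mul, smul_eq_mul, map_mul]
  rfl

/-- the value of the bivector -/
theorem r_eq (D : Dat k g) : D.r = D.Q.map (Polynomial.eval D.c) *ᵥ D.e := by
  funext i
  rfl

theorem er (D : Dat k g) (hQ : D.Qᵀ = -D.Q) (h2 : (2 : k) ≠ 0) : D.e ⬝ᵥ D.r = 0 := by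
  set Qc := D.Q.map (Polynomial.eval D.c) with hQc
  have h3 : Qcᵀ = -Qc := by
    rw [hQc, ← Matrix.transpose_map, hQ]
    ext1 i j
    rw [Matrix.map_apply, Matrix.neg_apply, Matrix.neg_apply, Matrix.map_apply, eval_neg]
  have h4 : D.e ⬝ᵥ (Qc *ᵥ D.e) = -(D.e ⬝ᵥ (Qc *ᵥ D.e)) := by
    calc D.e ⬝ᵥ (Qc *ᵥ D.e) = (Qcᵀ *ᵥ D.e) ⬝ᵥ D.e := by
          rw [Matrix.dotProduct_mulVec, Matrix.mulVec_transpose]
      _ = -(D.e ⬝ᵥ (Qc *ᵥ D.e)) := by
          rw [h3, Matrix.neg_mulVec, neg_dotProduct, dotProduct_comm]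
  rw [r_eq]
  have h5 : (2 : k) * (D.e ⬝ᵥ (Qc *ᵥ D.e)) = 0 := by linear_combination h4
  exact (mul_eq_zero.1 h5).resolve_left h2

theorem M_eval (D : Dat k g) (hμ : D.μ ≠ 0)
    (hM : ∀ i j, D.μ * (D.M i j).eval D.c = D.κ * D.r i * D.e j) :
    D.M.map (Polynomial.eval D.c) = (D.μ⁻¹ * D.κ) • Matrix.vecMulVec D.r D.e := by
  ext1 i j
  rw [Matrix.map_apply, Matrix.smul_apply, Matrix.vecMulVec_apply, smul_eq_mul]
  have h1 := hM i j
  have h2 : (D.M i j).eval D.c = D.μ⁻¹ * (D.μ * (D.M i j).eval D.c) := by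
    rw [← mul_assoc, inv_mul_cancel₀ hμ, one_mul]
  rw [h2, h1]
  ring

theorem M_sq (D : Dat k g) (hμ : D.μ ≠ 0)
    (hM : ∀ i j, D.μ * (D.M i j).eval D.c = D.κ * D.r i * D.e j) (her : D.e ⬝ᵥ D.r = 0) :
    D.M.map (Polynomial.eval D.c) * D.M.map (Polynomial.eval D.c) = 0 := by
  rw [M_eval D hμ hM, Matrix.smul_mul, Matrix.mul_smul, Matrix.vecMulVec_mul_vecMulVec, her]
  ext1 i j
  simp

theorem M_r (D : Dat k g) (hμ : D.μ ≠ 0)
    (hM : ∀ i j, D.μ * (D.M i j).eval D.c = D.κ * D.r i * D.e j) (her : D.e ⬝ᵥ D.r = 0) :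
    D.M.map (Polynomial.eval D.c) *ᵥ D.r = 0 := by
  rw [M_eval D hμ hM, Matrix.smul_mulVec, Matrix.vecMulVec_mulVec, her]
  simp

theorem M_tr (D : Dat k g) (hμ : D.μ ≠ 0) (hκ : D.κ ≠ 0)
    (hM : ∀ i j, D.μ * (D.M i j).eval D.c = D.κ * D.r i * D.e j)
    (θ : Matrix (Fin (2 * g)) (Fin (2 * g)) k)
    (h : (θ * D.M.map (Polynomial.eval D.c)).trace = 0) : D.e ⬝ᵥ (θ *ᵥ D.r) = 0 := by
  rw [M_eval D hμ hM, Matrix.mul_smul, Matrix.trace_smul, Matrix.mul_vecMulVec,
    Matrix.trace_vecMulVec, smul_eq_mul] at h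
  rw [dotProduct_comm]
  exact (mul_eq_zero.1 h).resolve_left (mul_ne_zero (inv_ne_zero hμ) hκ)

/-- The relations of `X_j = x ξᵀ` are stable under the connection. -/
theorem orth_stable (D : Dat k g) (hδ : D.δ ≠ 0) (hdet : D.Q.det = Polynomial.C D.δ)
    (hH : D.W • D.Q.map (fun q => derivative q) + D.M * D.Q + D.Q * D.Mᵀ = 0)
    (hw : D.w.eval D.c ≠ 0) {x : Fin (2 * g) → PowerSeries k} (hx : D.Hor x)
    {Dk : Der (KX k)} (hDk : IsDer Dk) :
    ∀ θ ∈ Orth (ell D.c) (Matrix.vecMulVec (fun i => al k (x i)) fun i => al k (D.xi x i)),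
      NB Dk D.B θ ∈
        Orth (ell D.c) (Matrix.vecMulVec (fun i => al k (x i)) fun i => al k (D.xi x i)) := by
  intro θ hθ
  set W := Orth (ell D.c) (Matrix.vecMulVec (fun i => al k (x i)) fun i => al k (D.xi x i))
    with hW
  obtain ⟨d, θ', hd, hdθ⟩ := clearM θ
  have h1 : θ'.map (ι k) ∈ W := hdθ ▸ W.smul_mem _ hθ
  have h2 : D.xi x ⬝ᵥ (θ'.map (tay D.c) *ᵥ x) = 0 := by
    apply al_inj
    rw [map_zero, ← tr_poly]
    exact h1
  have h3 : (D.wD θ').map (ι k) ∈ W := by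
    rw [hW, mem_Orth, tr_poly, ← star D hδ hdet hH hx, h2, map_zero, mul_zero, map_zero]
  rw [← NB_poly D hw hDk] at h3
  have h4 := mem_of_smul (W_ne D hw) h3
  rw [← hdθ, NB_smul] at h4
  have h5 := W.sub_mem h4 (W.smul_mem (Dk (ι k d)) hθ)
  rw [add_sub_cancel_left] at h5
  exact mem_of_smul hd h5

end alg

end Pool.Agent.Helper61.BW
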