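import Pool.Agent.Helper61.BW.WConA

/-!
# Package W5: the algebraic part
-/

set_option autoImplicit false

open Polynomial Matrix Finset Filter

namespace Pool.Agent.Helper61.BW

open Pool.Agent.Helper62.BM Pool.Agent.Helper62.BW Pool.Agent.Helper90.BM Pool.Agent.Helper61.BM
open Pool.Agent.Helper61.BL (tay_C tay_X tay_eq tay_inj tay_coeff0 tay_der D_dot D_mulVec ι_inj
  clear LX al al_inj ell ell_ι tr_ell tr_poly Orth mem_Orth clearM mem_of_smul orth_stable_f
  closure smul_map PolyM mem_PolyM double_ann span_stable)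

/-- The algebraic part. -/
theorem core1 (hPS : L_PS) (hVan : W_Van) (hLie : S_Lie) (g : ℕ) (hg : 1 ≤ g) (k : Type) [Field k]
    [CharZero k] (E : Dat k g) (hOk : E.Ok) (hS : E.Strong)
    (L' : Type) [Field L'] (f : KX k →+* L') (Dk : Der (KX k)) (hDk : IsDer Dk) (D : Der L')
    (hfD : ∀ z, f (Dk z) = D (f z)) (φ : Matrix (Fin (2 * g)) (Fin (2 * g)) L')
    (hNφ : NB D (E.B.map f) φ = 0)
    (hdpm : ∀ W : Submodule L' (Matrix (Fin (2 * g)) (Fin (2 * g)) L'),
      (∀ η ∈ W, NB D (E.B.map f) η ∈ W) → ∀ η ∈ W, φ * η - η * φ ∈ W)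
    (hval : ∀ η : Matrix (Fin (2 * g)) (Fin (2 * g)) k[X], ((η.map (ι k)).map f * φ).trace = 0 →
      E.e ⬝ᵥ (η.map (Polynomial.eval E.c) *ᵥ E.r) = 0)
    (A : Matrix (Fin (2 * g)) (Fin (2 * g)) (KX k))
    (hA : A * E.QX + E.QX * Aᵀ = 0)
    (θ : Matrix (Fin (2 * g)) (Fin (2 * g)) (KX k))
    (hθ : (θ.map f * φ).trace = 0) :
    (θ * A).trace = 0 := by
  classical
  have hOk' := hOk
  obtain ⟨hQs, -, hQd, -, hδ, -, hw, hμ, hκ, he, hH, hM⟩ := hOk'
  set T0 := Orth f φ with hT0
  have hT0st : ∀ θ ∈ T0, NB Dk E.B θ ∈ T0 := orth_stable_f f Dk D hfD _ φ hNφ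
  have her := er E hQs two_ne_zero
  -- the horizontal vector
  obtain ⟨x, hx0, hx⟩ : ∃ x : Fin (2 * g) → PowerSeries k,
      (∀ a, PowerSeries.constantCoeff (x a) = E.r a) ∧ E.Hor x := by
    obtain ⟨x, h1, h2⟩ := hPS k (2 * g) E.M E.w E.c hw (M_sq E hμ hM her) E.r (M_r E hμ hM her)
    exact ⟨x, h1, h2⟩
  set ξ := E.xi x with hξ
  set N := E.Q.adjugate with hN
  have hNQ : N * E.Q = Polynomial.C E.δ • 1 := by rw [hN, Matrix.adjugate_mul, hQd]
  have hQN : E.Q * N = Polynomial.C E.δ • 1 := by rw [hN, Matrix.mul_adjugate, hQd]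
  -- the values
  have hξ0 : ∀ a, PowerSeries.constantCoeff (ξ a) = E.δ * E.e a := by
    intro a
    have h1 : ξ a = ∑ b, tay E.c (N a b) * x b := rfl
    rw [h1, map_sum]
    have h2 : ∀ b, PowerSeries.constantCoeff (tay E.c (N a b) * x b) =
        (N a b).eval E.c * E.r b := by
      intro b
      rw [map_mul, tay_coeff0, hx0]
    simp only [h2]
    have h3 : N.map (Polynomial.eval E.c) *ᵥ E.r = E.δ • E.e := by
      have h4 : N.map (Polynomial.eval E.c) * E.Q.map (Polynomial.eval E.c) = E.δ • 1 := by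
        have h5 := congrArg (fun Z => Matrix.map Z (evalRingHom E.c)) hNQ
        beta_reduce at h5
        rw [Matrix.map_mul] at h5
        have h6 : (Polynomial.C E.δ • (1 : Matrix (Fin (2 * g)) (Fin (2 * g)) k[X])).map
            (evalRingHom E.c) = E.δ • 1 := by
          ext1 i j
          rw [Matrix.map_apply, Matrix.smul_apply, Matrix.smul_apply, Matrix.one_apply,
            Matrix.one_apply, smul_eq_mul, smul_eq_mul, coe_evalRingHom]
          split_ifs
          · rw [mul_one, mul_one, eval_C]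
          · rw [mul_zero, mul_zero, eval_zero]
        rw [h6] at h5
        exact h5
      rw [r_eq, Matrix.mulVec_mulVec, h4, Matrix.smul_mulVec, Matrix.one_mulVec]
    exact congrFun h3 a
  obtain ⟨b0, hb0⟩ : ∃ b0, E.e b0 ≠ 0 := by
    by_contra hcon
    push Not at hcon
    exact he (funext hcon)
  have hξb : ξ b0 ≠ 0 := fun h => by
    have := hξ0 b0
    rw [h, map_zero] at this
    exact mul_ne_zero hδ hb0 this.symm
  obtain ⟨a0, ha0⟩ : ∃ a0, x a0 ≠ 0 := by
    by_contra hcon
    push Not at hcon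
    apply hξb
    have h1 : ξ b0 = ∑ b, tay E.c (N b0 b) * x b := rfl
    rw [h1]
    exact Finset.sum_eq_zero fun b _ => by rw [hcon b, mul_zero]
  -- the polynomial relations of `φ` are relations of `X_j`
  have hvan : ∀ η ∈ PolyM T0, ξ ⬝ᵥ (η.map (tay E.c) *ᵥ x) = 0 := by
    refine hVan k g E hOk x hx hx0 (PolyM T0) ?_ ?_ ?_
    · intro η hη
      rw [mem_PolyM, ← NB_poly E hw hDk]
      exact T0.smul_mem _ (hT0st _ hη)
    · intro η hη
      rw [mem_PolyM, smul_map] at hη
      exact mem_of_smul (Polynomial.X_sub_C_ne_zero _) hη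
    · intro η hη
      exact hval η ((mem_Orth f φ _).1 hη)
  -- the rank one matrix
  set c := E.c with hc
  set X' : Matrix (Fin (2 * g)) (Fin (2 * g)) (LX k) :=
    Matrix.vecMulVec (fun i => al k (x i)) (fun i => al k (ξ i)) with hX'
  set TJ := Orth (ell c) X' with hTJ
  have hTJst : ∀ θ ∈ TJ, NB Dk E.B θ ∈ TJ := orth_stable E hδ hQd hH hw hx hDk
  have hle : T0 ≤ TJ := by
    intro θ₁ h1
    obtain ⟨d, θ', hd, hdθ⟩ := clearM θ₁
    have h2 : θ' ∈ PolyM T0 := by
      rw [mem_PolyM, ← hdθ]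
      exact T0.smul_mem _ h1
    have h3 : θ'.map (ι k) ∈ TJ := by
      rw [hTJ, mem_Orth, hX', tr_poly, hvan θ' h2, map_zero]
    rw [← hdθ] at h3
    exact mem_of_smul hd h3
  letI : Algebra (KX k) (LX k) := (ell c).toAlgebra
  obtain ⟨hS1, hS2⟩ := hS x hx hx0
  refine hLie (KX k) (LX k) (2 * g) E.QX X' (by omega) ?_ ?_
    ⟨_, _, rfl⟩ ?_ ?_ ?_ ?_ ?_ A hA θ ((mem_Orth _ _ θ).1 (hle ((mem_Orth f φ θ).2 hθ)))
  · -- skew
    unfold Dat.QX
    rw [← Matrix.transpose_map, hQs]
    ext1 a b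
    simp only [Matrix.map_apply, Matrix.neg_apply, map_neg]
  · -- determinant
    have h1 := RingHom.map_det (ι k) E.Q
    rw [RingHom.mapMatrix_apply] at h1
    unfold Dat.QX
    rw [← h1, hQd]
    exact fun h => hδ (Polynomial.C_eq_zero.1 (ι_inj (h.trans (map_zero _).symm)))
  · -- not zero
    intro h
    have h1 := congrFun (congrFun h a0) b0
    rw [hX', Matrix.vecMulVec_apply, Matrix.zero_apply, ← map_mul] at h1
    exact mul_ne_zero ha0 hξb (al_inj (h1.trans (map_zero _).symm))
  · -- the form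
    have h1 : (E.QX.map (algebraMap (KX k) (LX k))) = (E.Q.map (tay c)).map (al k) := by
      ext1 a b
      show ell c (ι k (E.Q a b)) = _
      rw [ell_ι]
      rfl
    have hxx : E.Q.map (tay c) *ᵥ ξ = PowerSeries.C E.δ • x := by
      have h2 : ξ = N.map (tay c) *ᵥ x := rfl
      have h3 : E.Q.map (tay c) * N.map (tay c) =
          (PowerSeries.C E.δ) • (1 : Matrix (Fin (2 * g)) (Fin (2 * g)) (PowerSeries k)) := by
        rw [← Matrix.map_mul, hQN]
        ext1 i j
        rw [Matrix.map_apply, Matrix.smul_apply, Matrix.smul_apply, Matrix.one_apply,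
          Matrix.one_apply, smul_eq_mul, smul_eq_mul]
        split_ifs
        · rw [mul_one, mul_one, tay_C]
        · rw [mul_zero, mul_zero, map_zero]
      rw [h2, Matrix.mulVec_mulVec, h3, Matrix.smul_mulVec, Matrix.one_mulVec]
    have h2 : (E.Q.map (tay c)).map (al k) *ᵥ
        (fun i => al k (ξ i)) = al k (PowerSeries.C E.δ) • fun i => al k (x i) := by
      funext i
      have h4 := congrArg (al k) (congrFun hxx i)
      rw [RingHom.map_mulVec] at h4
      rw [Pi.smul_apply, smul_eq_mul, map_mul] at h4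
      exact h4
    set QL := (E.Q.map (tay c)).map (al k) with hQL
    have hQt : QLᵀ = -QL := by
      rw [hQL, ← Matrix.transpose_map, ← Matrix.transpose_map, hQs]
      ext1 a b
      simp only [Matrix.map_apply, Matrix.neg_apply, map_neg]
    have h3 : (fun i => al k (ξ i)) ᵥ* QL = -(al k (PowerSeries.C E.δ) • fun i => al k (x i)) := by
      rw [← h2, ← Matrix.mulVec_transpose, hQt, Matrix.neg_mulVec]
    rw [h1, hX', Matrix.transpose_vecMulVec, Matrix.vecMulVec_mul, Matrix.mul_vecMulVec, h2, h3]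
    ext1 a b
    rw [Matrix.add_apply, Matrix.vecMulVec_apply, Matrix.vecMulVec_apply, Pi.neg_apply,
      Matrix.zero_apply, Pi.smul_apply, Pi.smul_apply, smul_eq_mul, smul_eq_mul]
    ring
  · -- kernel
    intro w hw'
    obtain ⟨d, q, hd, hq⟩ := clear w
    have h1 : ∑ a, tay c (q a) * ξ a = 0 := by
      have h2 : X' *ᵥ (fun i => ell c (ι _ (q i))) = 0 := by
        have h3 : (fun i => ell c (ι _ (q i))) =
            ell c (ι _ d) • fun i => algebraMap (KX k) (LX k) (w i) := by
          funext i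
          rw [← hq i, map_mul]
          rfl
        rw [h3, Matrix.mulVec_smul, hw', smul_zero]
      have h4 := congrFun h2 a0
      have h5 : (X' *ᵥ (fun i => ell c (ι _ (q i)))) a0 =
          al k (x a0 * ∑ a, tay c (q a) * ξ a) := by
        rw [map_mul, map_sum, Matrix.mulVec, dotProduct, Finset.mul_sum]
        refine Finset.sum_congr rfl fun l _ => ?_
        rw [hX', Matrix.vecMulVec_apply, ell_ι, map_mul]
        ring
      rw [h5, Pi.zero_apply] at h4
      exact (mul_eq_zero.1 (al_inj (h4.trans (map_zero _).symm))).resolve_left ha0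
    have h2 := hS1 q h1
    funext i
    have h3 := hq i
    rw [h2, Pi.zero_apply, map_zero] at h3
    exact (mul_eq_zero.1 h3).resolve_left fun h => hd (ι_inj (h.trans (map_zero _).symm))
  · -- commutant
    intro y hy
    obtain ⟨d, y', hd, hdy⟩ := clearM y
    have h0 : ι k d ≠ 0 := fun h => hd (ι_inj (h.trans (map_zero _).symm))
    have h1 : y'.map (tay c) * Matrix.vecMulVec x ξ = Matrix.vecMulVec x ξ * y'.map (tay c) := by
      have h2 : (y'.map (ι k)).map (ell c) * X' = X' * (y'.map (ι k)).map (ell c) := by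
        rw [← hdy]
        have h3 : (ι k d • y).map (ell c) = ell c (ι _ d) • y.map (ell c) :=
          Matrix.ext fun a b => map_mul (ell c) _ _
        rw [h3, Matrix.smul_mul, Matrix.mul_smul]
        congr 1
      have h4 : X' = (Matrix.vecMulVec x ξ).map (al k) := by
        ext a b
        rw [hX', Matrix.map_apply, Matrix.vecMulVec_apply, Matrix.vecMulVec_apply, map_mul]
      have h5 : (y'.map (ι k)).map (ell c) = (y'.map (tay c)).map (al k) := by
        ext1 a b
        simp only [Matrix.map_apply, ell_ι]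
      rw [h4, h5, ← Matrix.map_mul, ← Matrix.map_mul] at h2
      exact Matrix.ext fun a b => al_inj (congrFun (congrFun h2 a) b)
    obtain ⟨q, hq⟩ := hS2 y' h1
    refine ⟨(ι _ d)⁻¹ * ι _ q, ?_⟩
    ext1 a b
    have h2 := congrFun (congrFun hdy a) b
    rw [Matrix.smul_apply, Matrix.map_apply, hq, smul_eq_mul] at h2
    by_cases hab : a = b
    · subst hab
      rw [Matrix.diagonal_apply_eq] at h2 ⊢
      rw [← h2, inv_mul_cancel_left₀ h0]
    · rw [Matrix.diagonal_apply_ne _ hab] at h2 ⊢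
      rw [map_zero] at h2
      exact (mul_eq_zero.1 h2).resolve_left h0
  · -- the span is stable
    intro θ₁ hθ₁
    have hθ₁' : θ₁ ∈ TJ := (mem_Orth _ _ θ₁).2 hθ₁
    exact closure f (ell c) φ X' hle θ₁
      (hdpm _ (span_stable f Dk D hfD E.B TJ hTJst) _
        (Submodule.subset_span ⟨θ₁, hθ₁', rfl⟩))

end Pool.Agent.Helper61.BW
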